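import Pool.Agent.H952R3.Ext.Stmts

set_option autoImplicit false

/-! # Tasks G1 and G2 of the project H952-RADON -/

namespace Pool.Agent.H884R3.Ext

open Pool.Agent.Helper766.Rad Pool.Agent.Helper766.Rad.Plane Pool.Agent.H952R3.Ext

variable {ι : Type} [DecidableEq ι]

/-- either no four points are on a line, or there is a maximal line with at least four points -/
theorem big_or (M : RankFn ι) (E : Finset ι) (hs : Simple M E) (h3 : M.r E = 3) :
    (∀ F ⊆ E, F.card = 4 → M.r F = 3) ∨ ∃ L ⊆ E, M.r L = 2 ∧ 4 ≤ L.card ∧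
      (∀ x ∈ E \ L, M.r (insert x L) = 3) ∧ 1 ≤ (E \ L).card ∧
      (E \ L).card + L.card = E.card ∧
      L.card.choose 3 + (E \ L).card.choose 2 * ((L.card - 1).choose 2 + 1) +
        (E \ L).card.choose 3 ≤ (circs M E).card := by
  by_cases hno : ∀ F ⊆ E, F.card = 4 → M.r F = 3
  · exact Or.inl hno
  · right
    push Not at hno
    obtain ⟨F, hFE, hF4, hFr⟩ := hno
    have hFr2 : M.r F = 2 := by
      have h1 := M.mono _ _ hFE
      have h2 := R3.two_le M hs hFE (by omega)
      omega
    obtain ⟨L, hLmem, hLmax⟩ := Finset.exists_max_image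
      (E.powerset.filter (fun S => M.r S = 2)) Finset.card
      ⟨F, Finset.mem_filter.mpr ⟨Finset.mem_powerset.mpr hFE, hFr2⟩⟩
    rw [Finset.mem_filter, Finset.mem_powerset] at hLmem
    obtain ⟨hLE, hL2⟩ := hLmem
    have hL4 : 4 ≤ L.card := by
      rw [← hF4]
      exact hLmax F (Finset.mem_filter.mpr ⟨Finset.mem_powerset.mpr hFE, hFr2⟩)
    have hcl : ∀ x ∈ E \ L, M.r (insert x L) = 3 := by
      intro x hx
      rw [Finset.mem_sdiff] at hx
      have h1 := M.mono _ _ (Finset.insert_subset hx.1 hLE)
      have h2 := M.mono _ _ (Finset.subset_insert x L)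
      by_contra hne
      have h4 : M.r (insert x L) = 2 := by omega
      have h5 := hLmax (insert x L) (Finset.mem_filter.mpr
        ⟨Finset.mem_powerset.mpr (Finset.insert_subset hx.1 hLE), h4⟩)
      rw [Finset.card_insert_of_notMem hx.2] at h5
      omega
    have hbig := R3.circs_ge_big M E L hs h3 hLE hL2 hL4 hcl
    have hcard : (E \ L).card + L.card = E.card := Finset.card_sdiff_add_card_eq_card hLE
    have hk : 1 ≤ (E \ L).card := by
      by_contra hcon
      have : (E \ L).card = 0 := by omega
      rw [Finset.card_eq_zero, Finset.sdiff_eq_empty_iff_subset] at this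
      have := M.mono _ _ this
      omega
    exact ⟨L, hLE, hL2, hL4, hcl, hk, hcard, hbig⟩

theorem g1 : TaskG1 := by
  intro ι _ M E hs h3 h5 hc
  rcases big_or M E hs h3 with hno | ⟨L, hLE, hL2, hL4, hcl, hk, hcard, hbig⟩
  · have a2 := R3.quads_ge M E
    have a3 := R3.circs_ge M E hs h3
    rw [h5] at a2
    have e1 : Nat.choose 5 4 = 5 := by decide
    rw [e1] at a2
    have ht : 2 ≤ (R3.tri M E).card := by omega
    obtain ⟨T, hT, T', hT', hne⟩ := Finset.one_lt_card.mp ht
    have hint := R3.tri_inter M E hs hno hT hT' hne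
    unfold R3.tri at hT hT'
    rw [Finset.mem_filter, Finset.mem_powersetCard] at hT hT'
    have hcu := Finset.card_union_add_card_inter T T'
    have hUE : T ∪ T' ⊆ E := Finset.union_subset hT.1.1 hT'.1.1
    have hle := Finset.card_le_card hUE
    have hI1 : (T ∩ T').card = 1 := by omega
    have hU5 : T ∪ T' = E := Finset.eq_of_subset_of_card_le hUE (by omega)
    obtain ⟨a, ha⟩ := Finset.card_eq_one.mp hI1
    have haI : a ∈ T ∩ T' := by rw [ha]; exact Finset.mem_singleton_self a
    rw [Finset.mem_inter] at haI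
    have hd : (T' \ T).card = 2 := by
      have := Finset.card_sdiff_add_card_inter T' T
      rw [Finset.inter_comm] at this
      omega
    obtain ⟨p, q, hpq, hpqe⟩ := Finset.card_eq_two.mp hd
    have hp : p ∈ T' \ T := by rw [hpqe]; simp
    have hq : q ∈ T' \ T := by rw [hpqe]; simp
    rw [Finset.mem_sdiff] at hp hq
    have hT'e : ({a, p, q} : Finset ι) = T' := by
      apply Finset.eq_of_subset_of_card_le
      · intro x hx
        simp only [Finset.mem_insert, Finset.mem_singleton] at hx
        rcases hx with rfl | rfl | rfl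
        · exact haI.2
        · exact hp.1
        · exact hq.1
      · have hap : a ≠ p := fun h => hp.2 (h ▸ haI.1)
        have haq : a ≠ q := fun h => hq.2 (h ▸ haI.1)
        rw [Finset.card_insert_of_notMem (by simp [hap, haq]), Finset.card_pair hpq]
        omega
    refine ⟨T, p, q, a, by omega, ?_, hp.2, hq.2, hpq, haI.1, hT.2, ?_, h3⟩
    · rw [← hU5, ← Finset.union_sdiff_self_eq_union, hpqe]
      ext x
      simp only [Finset.mem_union, Finset.mem_insert, Finset.mem_singleton]
      tauto
    · rw [hT'e]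
      exact hT'.2
  · exfalso
    have hL : L.card = 4 := by omega
    have hk1 : (E \ L).card = 1 := by omega
    rw [hL, hk1] at hbig
    simp [Nat.choose] at hbig
    omega

theorem g2 : TaskG2 := by
  intro ι _ M E hs h3 h6 hc
  rcases big_or M E hs h3 with hno | ⟨L, hLE, hL2, hL4, hcl, hk, hcard, hbig⟩
  · have a2 := R3.quads_ge M E
    have a3 := R3.circs_ge M E hs h3
    rw [h6] at a2
    have e1 : Nat.choose 6 4 = 15 := by decide
    rw [e1] at a2
    have ht : 4 ≤ (R3.tri M E).card := by omega
    exact ⟨h6, h3, hno, ht⟩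
  · exfalso
    rcases (show L.card = 4 ∧ (E \ L).card = 2 ∨ L.card = 5 ∧ (E \ L).card = 1 by omega) with
      ⟨e1, e2⟩ | ⟨e1, e2⟩
    · rw [e1, e2] at hbig
      simp [Nat.choose] at hbig
      omega
    · rw [e1, e2] at hbig
      simp [Nat.choose] at hbig
      omega

end Pool.Agent.H884R3.Ext
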